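import Pool.Agent.Helper25.DY.Clauses
import Pool.Agent.Helper67.DY.Final

/-!
# MP_079761_co, Q1: the bound `5 n / 16 + c` is false

For every real `c` there is an orthogonal polygon with `n` vertices such that every set of vertex
guards that guards its interior and its exterior has more than `5 n / 16 + c` elements.

The polygons are histograms (mountains) with `n = 22 m + 12` vertices; each of them needs at least
`7 m - 11` vertex guards, see `sharper` below, and `7 / 22 > 5 / 16`.
-/

namespace Pool.Agent.Results.MP_079761_co.FiveSixteenthsFalse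

open Pool.Agent.Helper67.PY

theorem result (c : ℝ) :
    ∃ (n : ℕ) (P : OrthPolygon n), ∀ S : Finset (ℝ × ℝ), (∀ v ∈ S, ∃ i, P.pt i = v) →
      (∀ p ∈ P.region, ∃ v ∈ S, segment ℝ v p ⊆ P.region) →
      (∀ p ∈ P.exterior, ∃ v ∈ S, segment ℝ v p ⊆ P.exterior) →
      5 * (n : ℝ) / 16 + c < S.card :=
  Helper67.DY.disproof Helper25.DY.allClauses c

/-- The quantitative form: `22 m + 12` vertices and at least `7 m - 11` guards. -/
theorem sharper (m : ℕ) :
    ∃ P : OrthPolygon (22 * m + 12), ∀ S : Finset (ℝ × ℝ), (∀ v ∈ S, ∃ i, P.pt i = v) →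
      (∀ p ∈ P.region, ∃ v ∈ S, segment ℝ v p ⊆ P.region) →
      (∀ p ∈ P.exterior, ∃ v ∈ S, segment ℝ v p ⊆ P.exterior) → 7 * m - 11 ≤ S.card :=
  Helper67.DY.exists_polygon Helper25.DY.allClauses m

end Pool.Agent.Results.MP_079761_co.FiveSixteenthsFalse
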