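import Pool.Agent.Helper67.PY.Region
import Pool.Agent.Helper68.PY.FourFin

/-!
# MP_079761_co: vertex guards for orthogonal prison yards, the bound `n/3 + c`

Every orthogonal polygon with `n` vertices (possibly with holes) has a set of at most `(n + 13) / 3`
vertices which guards the interior and the exterior simultaneously.

The polygon is given by its boundary, a family of `k ≥ 1` pairwise disjoint simple closed orthogonal
polygonal curves `P t` with `n t` vertices each (`k = 1`: a polygon without holes), and by the closed
region `R`: a closed set which is the closure of its interior and whose frontier is the union of the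
curves.  The exterior is the closure of the complement of `R`.  See `simple_polygon` below for the
case of one curve, with the region given explicitly.
-/

namespace Pool.Agent.Results.MP_079761_co.VertexGuardsThird

open Pool.Agent.Helper67.PY

theorem result (k : ℕ) (hk : 0 < k) (n : Fin k → ℕ) (P : (t : Fin k) → OrthPolygon (n t))
    (hdisj : ∀ s t, s ≠ t → Disjoint (P s).boundary (P t).boundary)
    (R : Set (ℝ × ℝ)) (hclosed : IsClosed R) (hregular : R ⊆ closure (interior R))
    (hfrontier : frontier R = ⋃ t, (P t).boundary) :
    ∃ S : Finset (Σ t, ZMod (n t)), 3 * S.card ≤ (∑ t, n t) + 13 ∧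
      (∀ p ∈ R, ∃ v ∈ S, segment ℝ ((P v.1).pt v.2) p ⊆ R) ∧
      (∀ p ∈ closure Rᶜ, ∃ v ∈ S, segment ℝ ((P v.1).pt v.2) p ⊆ closure Rᶜ) :=
  OrthYard.guards_region ⟨n, P, hk, hdisj⟩ 9 Helper83.PY.frame_guards R hclosed hregular
    hfrontier.subset

/-- The case of a polygon without holes: `P.region` is the boundary curve together with the bounded
components of its complement. -/
theorem simple_polygon (n : ℕ) (P : OrthPolygon n) :
    ∃ S : Finset (ZMod n), 3 * S.card ≤ n + 13 ∧
      (∀ p ∈ P.region, ∃ i ∈ S, segment ℝ (P.pt i) p ⊆ P.region) ∧
      (∀ p ∈ P.exterior, ∃ i ∈ S, segment ℝ (P.pt i) p ⊆ P.exterior) :=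
  OrthPolygon.guards_of_frames 9 Helper83.PY.frame_guards n P

end Pool.Agent.Results.MP_079761_co.VertexGuardsThird
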